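import Pool.Agent.K6.H34.S3.Defs

/-!
# Knotoids which are closures of 3-braids by two opposite arcs

`Outer m` (starting library `Pool.Agent.H891R2.Jones.Diagram`): the part of an oriented diagram outside
a box through which `m` strands run; `draw O w` (starting library `Pool.Agent.W639.RB.Defs`): the word
`w` in the letters `(true, i) = σ_i`, `(false, i) = σ_i⁻¹` is drawn in the box, from the bottom to the
top; `Outer.close`: the rest of the box is filled with vertical strands.  `Word`, `nat`, `B3`, `σ`,
`braid` are defined in `Pool.Agent.K6.H34.S3.Defs`.
-/

set_option autoImplicit false

namespace Pool.Agent.K6.H14.KD

open Pool.Agent.H891R2.Jones Pool.Agent.W639.RB Pool.Agent.K6.H34.S3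

/-- The outside of the box: there are four marked points `0, 1, 2, 3` and no crossings.  The lower end of
the strand at the place `1` is the tail (marked point `0`), the lower ends at the places `0` and `2` are
joined by an arc below the tail (marked point `1`); the upper end at the place `1` is the head (marked
point `3`), the upper ends at the places `0` and `2` are joined by an arc above the head (marked point
`2`).  At the lower side of the box the strand at the place `1` is directed upwards, the strand at the
place `0` is directed upwards if `s` is true and downwards otherwise, the strand at the place `2` in the
opposite way. -/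
def caps (s : Bool) : Outer 3 where
  P := Fin 4
  arcs := []
  crossings := []
  lower := ![1, 0, 1]
  upper := ![2, 3, 2]
  up := ![s, true, !s]

/-- The diagram given by the word `w` (with directions, which at the upper side of the box need not fit;
if they fit, it is the diagram of a knotoid). -/
def knotoid (s : Bool) (w : Word) : Diagram (draw (caps s) (nat w)).P :=
  (draw (caps s) (nat w)).close

/-- A word on three strands; it stands for the diagram `knotoid s w` without the directions.  `trivial`
stands for the diagram of the trivial knotoid without crossings. -/
inductive Dgm
  | three (w : Word)
  | trivial

/-- Moves of these diagrams (without directions).  `cancel`: a Reidemeister move of type II; `braid`: a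
Reidemeister move of type III; `first`: the diagram given by the word `σ_i^{±1}` has one crossing only, at
which a loop begins and ends which has nothing on one of its two sides; it is removed by a Reidemeister
move of type I; `second`: the diagram given by the word `σ_i^{±1} σ_{1-i}^{∓1}` has two crossings; they
are the vertices of a region (outside of the box, bounded by the two arcs outside) with two edges, one
of which is above the other one at both crossings; the two crossings are removed by a Reidemeister
move of type II.  None of the moves moves a strand over or under an endpoint. -/
inductive Move : Dgm → Dgm → Prop
  | cancel (u v : Word) (b : Bool) (i : Fin 2) :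
      Move (.three (u ++ (b, i) :: (!b, i) :: v)) (.three (u ++ v))
  | braid (u v : Word) (b : Bool) :
      Move (.three (u ++ (b, 0) :: (b, 1) :: (b, 0) :: v))
        (.three (u ++ (b, 1) :: (b, 0) :: (b, 1) :: v))
  | first (b : Bool) (i : Fin 2) : Move (.three [(b, i)]) .trivial
  | second (b : Bool) (i : Fin 2) : Move (.three [(b, i), (!b, 1 - i)]) .trivial

/-- The diagram can be changed by moves and inverse moves into the diagram of the trivial knotoid
without crossings. -/
def Untied (X : Dgm) : Prop := Relation.EqvGen Move X .trivial

/-- The eight braids `σ_i^{±1}`, `σ_i^{±1} σ_{1-i}^{∓1}`. -/
def Short (g : B3) : Prop := ∃ (i : Fin 2) (ε : ℤ), (ε = 1 ∨ ε = -1) ∧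
  (g = σ i ^ ε ∨ g = σ i ^ ε * σ (1 - i) ^ (-ε))

end Pool.Agent.K6.H14.KD
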