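import Pool.Agent.K6.H34.S3.Alg
import Pool.Agent.K6.H14.KB.Main
import Pool.Agent.K6.H14.KD.Defs

/-!
# The functional
-/

set_option autoImplicit false

namespace Pool.Agent.K6.H14.KD

open LaurentPolynomial Complex Pool.Agent.K6.H34.S3 Pool.Agent.K6.H14.KB

section rep

variable {S : Type*} [CommRing S]

/-- the sum of the entries -/
def ts (M : Matrix (Fin 2) (Fin 2) S) : S := M 0 0 + M 0 1 + M 1 0 + M 1 1

theorem ts_C (a : Sˣ) (m : ℤ) (g : B3) :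
    ts (R a (C3 ^ m * g)).val = (((a⁻¹ ^ 6) ^ m : Sˣ) : S) * ts (R a g).val := by
  rw [map_mul, map_zpow, R_C', ← map_zpow, Units.val_mul]
  simp only [Units.coe_map, RingHom.toMonoidHom_eq_coe, MonoidHom.coe_coe, Algebra.algebraMap_eq_smul_one,
    smul_mul_assoc, one_mul]
  simp only [ts, Matrix.smul_apply, smul_eq_mul]
  ring

/-- the value of the bracket, up to the factor `1 + dl a` -/
def LamD (a : Sˣ) (g : B3) : S := (dl a ^ 2 + dl a - 2) * ((chi a g : Sˣ) : S) + ts (R a g).val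

variable {S' : Type*} [CommRing S'] (φ : S →+* S')

theorem LamD_map (a : Sˣ) (g : B3) : φ (LamD a g) = LamD (Units.map φ.toMonoidHom a) g := by
  have h1 : chi (Units.map φ.toMonoidHom a) g = Units.map φ.toMonoidHom (chi a g) := by
    rw [chi_eq, chi_eq, map_zpow]
  rw [LamD, LamD, R_map, h1]
  have h2 : φ 2 = 2 := map_ofNat φ 2
  simp [ts, dl, h2]

theorem ts_short1 (a : Sˣ) (i : Fin 2) : ts (R a (σ i ^ (1:ℤ))).val =
    (a : S) + ((a⁻¹ : Sˣ) : S) - ((a⁻¹ : Sˣ) : S) ^ 3 := by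
  rw [zpow_one]
  fin_cases i
  · simp [R_0, g0, ts]; ring
  · simp [R_1, g1, ts]; ring

theorem ts_short2 (a : Sˣ) (i : Fin 2) : ts (R a (σ i ^ (-1:ℤ))).val =
    (a : S) + ((a⁻¹ : Sˣ) : S) - (a : S) ^ 3 := by
  have e0 : ((g0 a)⁻¹ : (Matrix (Fin 2) (Fin 2) S)ˣ).val =
      !![((a⁻¹ : Sˣ) : S), 0; (a : S), -(a : S) ^ 3] := rfl
  have e1 : ((g1 a)⁻¹ : (Matrix (Fin 2) (Fin 2) S)ˣ).val =
      !![-(a : S) ^ 3, (a : S); 0, ((a⁻¹ : Sˣ) : S)] := rfl
  rw [zpow_neg_one, map_inv]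
  fin_cases i
  · simp only [Fin.zero_eta, Fin.isValue, R_0, e0]
    simp [ts]; ring
  · simp only [Fin.mk_one, Fin.isValue, R_1, e1]
    simp [ts]; ring

theorem ts_short3 (a : Sˣ) (i : Fin 2) {ε : ℤ} (hε : ε = 1 ∨ ε = -1) :
    ts (R a (σ i ^ ε * σ (1 - i) ^ (-ε))).val = 1 - (a : S) ^ 4 - ((a⁻¹ : Sˣ) : S) ^ 4 := by
  have e0 : ((g0 a)⁻¹ : (Matrix (Fin 2) (Fin 2) S)ˣ).val =
      !![((a⁻¹ : Sˣ) : S), 0; (a : S), -(a : S) ^ 3] := rfl
  have e1 : ((g1 a)⁻¹ : (Matrix (Fin 2) (Fin 2) S)ˣ).val =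
      !![-(a : S) ^ 3, (a : S); 0, ((a⁻¹ : Sˣ) : S)] := rfl
  have h := uv a
  rw [map_mul, Units.val_mul]
  rcases hε with rfl | rfl <;> fin_cases i <;>
    simp only [Fin.zero_eta, Fin.mk_one, Fin.isValue, sub_zero, sub_self, neg_neg, zpow_neg_one,
      zpow_one, map_inv, R_0, R_1, e0, e1]
  all_goals
    simp only [g0, g1, ts]
    generalize ((a⁻¹ : Sˣ) : S) = b at *
    generalize (a : S) = c at *
    simp [Matrix.mul_apply, Fin.sum_univ_two]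
  · linear_combination (1 - c ^ 2) * h
  · linear_combination (1 - c ^ 2) * h
  · linear_combination (1 - b ^ 2) * h
  · linear_combination (1 - b ^ 2) * h

end rep

theorem LamD_eight (z : ℂˣ) (hz : (z : ℂ) ^ 2 = I) (g : B3) :
    LamD z g = ((chi z g : ℂˣ) : ℂ) *
      (-2 + (Z g).val 0 0 + (Z g).val 1 1 + I * ((Z g).val 0 1 - (Z g).val 1 0)) := by
  have hd : dl z = 0 := by
    rw [dl, inv_eight z hz]
    linear_combination (-1 - I ^ 2) * hz + (-I) * I_mul_I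
  rw [LamD, hd, R_eight z hz, ts]
  simp
  ring

theorem evU_LamD {S : Type*} [CommRing S] (z : Sˣ) (g : B3) : evU z (LamD uT g) = LamD z g := by
  rw [LamD_map, map_uT]

end Pool.Agent.K6.H14.KD
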