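import Pool.Agent.K6.H14.KD.Link

/-!
# The theorem for the closures by two opposite arcs
-/

set_option autoImplicit false

namespace Pool.Agent.K6.H14.KD

open Finset LaurentPolynomial Pool.Agent.H891R2.Jones Pool.Agent.W639.RB Pool.Agent.K6.H34.S3
  Pool.Agent.H832R3.TW Pool.Agent.H297.FT Pool.Agent.K6.H14.KB Pool.Agent.K6.H14.KW

/-! ### Short braids and words -/

theorem braid_one (b : Bool) (i : Fin 2) : braid [(b, i)] = if b then σ i else (σ i)⁻¹ := by
  rw [braid_cons, braid_nil, mul_one]

theorem braid_two (b : Bool) (i : Fin 2) : braid [(b, i), (!b, 1 - i)] =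
    (if b then σ i else (σ i)⁻¹) * (if (!b) then σ (1 - i) else (σ (1 - i))⁻¹) := by
  rw [braid_cons, braid_cons, braid_nil, mul_one]

theorem short_iff (g : B3) : Short g ↔ ∃ (b : Bool) (i : Fin 2),
    g = braid [(b, i)] ∨ g = braid [(b, i), (!b, 1 - i)] := by
  constructor
  · rintro ⟨i, ε, hε, h⟩
    rcases hε with rfl | rfl
    · refine ⟨true, i, ?_⟩
      rw [braid_one, braid_two]
      simpa using h
    · refine ⟨false, i, ?_⟩
      rw [braid_one, braid_two]
      simpa using h
  · rintro ⟨b, i, h⟩
    rw [braid_one, braid_two] at h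
    cases b
    · exact ⟨i, -1, Or.inr rfl, by simpa using h⟩
    · exact ⟨i, 1, Or.inl rfl, by simpa using h⟩

/-! ### The moves -/

theorem move_of_loc {w w' : Word} (h : Loc w w') : Move (.three w) (.three w') := by
  cases h with
  | cancel u v b i => exact Move.cancel u v b i
  | braid u v b => exact Move.braid u v b

theorem eqv_of_braid {w w' : Word} (h : braid w = braid w') :
    Relation.EqvGen Move (.three w) (.three w') := by
  have h1 := loc_of_braid h
  clear h
  induction h1 with
  | rel a b h => exact .rel _ _ (move_of_loc h)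
  | refl a => exact .refl _
  | symm a b _ ih => exact .symm _ _ ih
  | trans a b c _ _ ih ih' => exact .trans _ _ _ ih ih'

/-- what is invariant -/
def Inv : Dgm → Prop
  | .three w => Short (braid w)
  | .trivial => True

theorem inv_move {X Y : Dgm} (h : Move X Y) : Inv X ↔ Inv Y := by
  cases h with
  | cancel u v b i =>
    unfold Inv; dsimp only
    rw [braid_append, braid_cancel, ← braid_append]
  | braid u v b =>
    unfold Inv; dsimp only
    rw [braid_append, braid_braid, ← braid_append]
  | first b i =>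
    unfold Inv; dsimp only
    rw [iff_true, short_iff]
    exact ⟨b, i, Or.inl rfl⟩
  | second b i =>
    unfold Inv; dsimp only
    rw [iff_true, short_iff]
    exact ⟨b, i, Or.inr rfl⟩

theorem inv_eqv {X Y : Dgm} (h : Relation.EqvGen Move X Y) : Inv X ↔ Inv Y := by
  induction h with
  | rel a b h => exact inv_move h
  | refl a => exact Iff.rfl
  | symm a b _ ih => exact ih.symm
  | trans a b c _ _ ih ih' => exact ih.trans ih'

theorem untied_iff (w : Word) : Untied (.three w) ↔ Short (braid w) := by
  constructor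
  · intro h
    exact (inv_eqv h).2 (show Inv .trivial from trivial)
  · intro h
    obtain ⟨b, i, h | h⟩ := (short_iff _).1 h
    · exact .trans _ _ _ (eqv_of_braid h) (.rel _ _ (Move.first b i))
    · exact .trans _ _ _ (eqv_of_braid h) (.rel _ _ (Move.second b i))

/-! ### Directions -/

theorem act_perm (w : Word) : ∃ π : Equiv.Perm (Fin 3), ∀ u : Fin 3 → Bool, act u w = u ∘ π := by
  induction w with
  | nil => exact ⟨1, fun u => rfl⟩
  | cons x w ih =>
    obtain ⟨π, h⟩ := ih
    refine ⟨π.trans (Equiv.swap x.2.castSucc x.2.succ), fun u => ?_⟩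
    show act (u ∘ Equiv.swap x.2.castSucc x.2.succ) w = _
    rw [h]
    rfl

theorem exists_dir (w : Word) : ∃ s : Bool, IsKnotoid (knotoid s w) := by
  obtain ⟨π, h⟩ := act_perm w
  simp only [isKnotoid_iff', h]
  have key : ∀ a b c : Fin 3, a ≠ b → b ≠ c → a ≠ c → ∃ s : Bool,
      (![s, true, !s] : Fin 3 → Bool) b = true ∧
      (![s, true, !s] : Fin 3 → Bool) a ≠ (![s, true, !s] : Fin 3 → Bool) c := by decide
  exact key (π 0) (π 1) (π 2) (fun h => by simpa using π.injective h)
    (fun h => by simpa using π.injective h) (fun h => by simpa using π.injective h)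

/-! ### The theorem -/

theorem forward (s : Bool) (w : Word) (h : (knotoid s w).fPoly = 1) : Short (braid w) := by
  rw [fPoly_eq] at h
  have h1 := P_eq h
  have hP := bracket_eq s w
  rw [h1] at hP
  obtain ⟨m, x, hx, hg⟩ := stepD_one (ex_braid w) (even_iff _ w) hP
  obtain ⟨e, he, hex, hs⟩ := short_data hx
  rw [hg, LamD_short hex hs m] at hP
  have hm := stepD_two he hP
  rw [hg, hm, zpow_zero, one_mul]
  exact hx

theorem dir_one : ∀ (s b : Bool) (i : Fin 2), (act ![s, true, !s] [(b, i)] 1 = true ∧
    act ![s, true, !s] [(b, i)] 0 ≠ act ![s, true, !s] [(b, i)] 2) →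
    wr ![s, true, !s] [(b, i)] = if b then 1 else -1 := by decide

theorem dir_two : ∀ (s b : Bool) (i : Fin 2), (act ![s, true, !s] [(b, i), (!b, 1 - i)] 1 = true ∧
    act ![s, true, !s] [(b, i), (!b, 1 - i)] 0 ≠ act ![s, true, !s] [(b, i), (!b, 1 - i)] 2) →
    wr ![s, true, !s] [(b, i), (!b, 1 - i)] = 0 := by decide

theorem backward (s : Bool) (w : Word) (hk : IsKnotoid (knotoid s w)) (h : Short (braid w)) :
    (knotoid s w).fPoly = 1 := by
  rw [isKnotoid_iff'] at hk
  obtain ⟨e, he, hex, hs⟩ := short_data h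
  have hv := short_value he hex hs (bracket_eq s w)
  have hW : wr ![s, true, !s] w = e := by
    obtain ⟨b, i, h | h⟩ := (short_iff _).1 h
    · obtain ⟨h1, h2⟩ := braid_dir h ![s, true, !s]
      rw [h1] at hk
      rw [h2, dir_one s b i hk]
      have h3 := ex_braid [(b, i)]
      rw [← h, hex] at h3
      have h4 := Multiplicative.ofAdd.injective h3
      rw [h4]
      simp [expo, nat]
    · obtain ⟨h1, h2⟩ := braid_dir h ![s, true, !s]
      rw [h1] at hk
      rw [h2, dir_two s b i hk]
      have h3 := ex_braid [(b, i), (!b, 1 - i)]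
      rw [← h, hex] at h3
      have h4 := Multiplicative.ofAdd.injective h3
      rw [h4]
      cases b <;> simp [expo, nat]
  rw [fPoly_eq, hW, hv]
  have h5 : (T (-3 * e) : ℤ[T;T⁻¹]) * T (3 * e) = 1 := by
    rw [← T_add]
    have : -3 * e + 3 * e = 0 := by ring
    rw [this, T_zero]
  calc sgn e * T (-3 * e) * (sgn e * T (3 * e)) = (sgn e * sgn e) * (T (-3 * e) * T (3 * e)) := by ring
    _ = 1 := by rw [sgn_sq, h5, one_mul]

theorem fPoly_one_iff (s : Bool) (w : Word) (hk : IsKnotoid (knotoid s w)) :
    (knotoid s w).fPoly = 1 ↔ Short (braid w) := ⟨forward s w, backward s w hk⟩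

end Pool.Agent.K6.H14.KD
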