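import Pool.Agent.K6.H14.KD.Main

/-!
# No full twists
-/

set_option autoImplicit false

namespace Pool.Agent.K6.H14.KD

open LaurentPolynomial Complex Pool.Agent.K6.H34.S3 Pool.Agent.K6.H14.KB

/-- the sum of the entries of the matrix of a short braid with exponent sum `e` -/
noncomputable def SS (e : ℤ) : ℤ[T;T⁻¹] :=
  if e = 1 then T 1 + T (-1) - T (-3) else if e = -1 then T 1 + T (-1) - T 3 else 1 - T 4 - T (-4)

theorem uT_val : ((uT : ℤ[T;T⁻¹]ˣ) : ℤ[T;T⁻¹]) = T 1 := rfl
theorem uT_inv : ((uT⁻¹ : ℤ[T;T⁻¹]ˣ) : ℤ[T;T⁻¹]) = T (-1) := rfl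

theorem Tp (n : ℤ) (k : ℕ) : (T n : ℤ[T;T⁻¹]) ^ k = T (k * n) := T_pow n k

theorem short_data {x : B3} (hx : Short x) : ∃ e : ℤ, (e = 1 ∨ e = -1 ∨ e = 0) ∧
    ex x = Multiplicative.ofAdd e ∧ ts (R uT x).val = SS e := by
  obtain ⟨i, ε, hε, h | h⟩ := hx
  · refine ⟨ε, by tauto, ?_, ?_⟩
    · rw [h, map_zpow, ex_σ]
      apply Multiplicative.toAdd.injective
      simp
    · rcases hε with rfl | rfl
      · rw [h, ts_short1, uT_val, uT_inv, SS, if_pos rfl, Tp]
        norm_num
      · rw [h, ts_short2, uT_val, uT_inv, SS, if_neg (by norm_num), if_pos rfl, Tp]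
        norm_num
  · refine ⟨0, by tauto, ?_, ?_⟩
    · rw [h, map_mul, map_zpow, map_zpow, ex_σ, ex_σ]
      apply Multiplicative.toAdd.injective
      simp
    · rw [h, ts_short3 _ _ hε, uT_val, uT_inv, SS, if_neg (by norm_num), if_neg (by norm_num), Tp, Tp]
      norm_num

theorem dd : (dl uT ^ 2 + dl uT - 2 : ℤ[T;T⁻¹]) = T 4 + T (-4) - T 2 - T (-2) := by
  have h1 : (T 2 : ℤ[T;T⁻¹]) * T 2 = T 4 := by rw [← T_add]; norm_num
  have h2 : (T (-2) : ℤ[T;T⁻¹]) * T (-2) = T (-4) := by rw [← T_add]; norm_num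
  have h3 : (T 2 : ℤ[T;T⁻¹]) * T (-2) = 1 := by rw [← T_add]; norm_num
  rw [dl_uT]
  linear_combination h1 + h2 + 2 * h3

theorem LamD_short {x : B3} {e : ℤ} (he : ex x = Multiplicative.ofAdd e)
    (hs : ts (R uT x).val = SS e) (m : ℤ) :
    LamD uT (C3 ^ m * x) = (T 4 + T (-4) - T 2 - T (-2)) * T (6 * m + e) + T (-(6 * m)) * SS e := by
  have h1 : ex (C3 ^ m * x) = Multiplicative.ofAdd (6 * m + e) := by
    rw [map_mul, he]
    apply Multiplicative.toAdd.injective
    simp only [map_mul, map_zpow, C3, X3, ex_σ, toAdd_mul, toAdd_zpow, toAdd_ofAdd, smul_eq_mul]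
    ring
  rw [LamD, ts_C, hs, dd, chi_eq, h1, toAdd_ofAdd, uT_zpow]
  congr 2
  rw [inv_pow, inv_zpow, ← zpow_natCast, ← zpow_mul, ← zpow_neg, uT_zpow]
  norm_num

theorem coefR {e m : ℤ} (he : e = 1 ∨ e = -1 ∨ e = 0) (hm : m ≠ 0) :
    ((T 4 + T (-4) - T 2 - T (-2)) * T (6 * m + e) + T (-(6 * m)) * SS e : ℤ[T;T⁻¹]).coeff
      (6 * m + e + 4) = 1 ∧
    ((T 4 + T (-4) - T 2 - T (-2)) * T (6 * m + e) + T (-(6 * m)) * SS e : ℤ[T;T⁻¹]).coeff
      (6 * m + e - 4) = 1 := by
  have h1 : ((T 4 + T (-4) - T 2 - T (-2)) * T (6 * m + e) : ℤ[T;T⁻¹]) =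
      T (4 + (6 * m + e)) + T (-4 + (6 * m + e)) - T (2 + (6 * m + e)) - T (-2 + (6 * m + e)) := by
    rw [T_add 4, T_add (-4), T_add 2, T_add (-2)]; ring
  rcases he with rfl | rfl | rfl
  · have h2 : (T (-(6 * m)) * SS 1 : ℤ[T;T⁻¹]) =
        T (-(6 * m) + 1) + T (-(6 * m) + -1) - T (-(6 * m) + -3) := by
      rw [SS, if_pos rfl, T_add, T_add, T_add]; ring
    rw [h1, h2]
    simp only [AddMonoidAlgebra.coeff_add, AddMonoidAlgebra.coeff_sub, Finsupp.add_apply,
      Finsupp.sub_apply, T_apply]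
    constructor
    · rw [if_pos (by omega), if_neg (by omega), if_neg (by omega), if_neg (by omega),
        if_neg (by omega), if_neg (by omega), if_neg (by omega)]
      norm_num
    · rw [if_neg (by omega), if_pos (by omega), if_neg (by omega), if_neg (by omega),
        if_neg (by omega), if_neg (by omega), if_neg (by omega)]
      norm_num
  · have h2 : (T (-(6 * m)) * SS (-1) : ℤ[T;T⁻¹]) =
        T (-(6 * m) + 1) + T (-(6 * m) + -1) - T (-(6 * m) + 3) := by
      rw [SS, if_neg (by norm_num), if_pos rfl, T_add, T_add, T_add]; ring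
    rw [h1, h2]
    simp only [AddMonoidAlgebra.coeff_add, AddMonoidAlgebra.coeff_sub, Finsupp.add_apply,
      Finsupp.sub_apply, T_apply]
    constructor
    · rw [if_pos (by omega), if_neg (by omega), if_neg (by omega), if_neg (by omega),
        if_neg (by omega), if_neg (by omega), if_neg (by omega)]
      norm_num
    · rw [if_neg (by omega), if_pos (by omega), if_neg (by omega), if_neg (by omega),
        if_neg (by omega), if_neg (by omega), if_neg (by omega)]
      norm_num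
  · have h2 : (T (-(6 * m)) * SS 0 : ℤ[T;T⁻¹]) =
        T (-(6 * m)) - T (-(6 * m) + 4) - T (-(6 * m) + -4) := by
      rw [SS, if_neg (by norm_num), if_neg (by norm_num), T_add, T_add]; ring
    rw [h1, h2]
    simp only [AddMonoidAlgebra.coeff_add, AddMonoidAlgebra.coeff_sub, Finsupp.add_apply,
      Finsupp.sub_apply, T_apply]
    constructor
    · rw [if_pos (by omega), if_neg (by omega), if_neg (by omega), if_neg (by omega),
        if_neg (by omega), if_neg (by omega), if_neg (by omega)]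
      norm_num
    · rw [if_neg (by omega), if_pos (by omega), if_neg (by omega), if_neg (by omega),
        if_neg (by omega), if_neg (by omega), if_neg (by omega)]
      norm_num

theorem coefL (W N j : ℤ)
    (h : ((1 + dl uT) * (sgn W * T N) : ℤ[T;T⁻¹]).coeff j ≠ 0) : j = N ∨ j = N + 2 ∨ j = N - 2 := by
  by_contra hcon
  push Not at hcon
  obtain ⟨h1, h2, h3⟩ := hcon
  apply h
  have e1 : ((1 + dl uT) * (sgn W * T N) : ℤ[T;T⁻¹]) =
      (if Even W then (1 : ℤ) else -1) • (T N - T (2 + N) - T (-2 + N)) := by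
    rw [dl_uT, T_add, T_add, sgn]
    split_ifs
    · rw [one_smul]; ring
    · rw [neg_smul, one_smul]; ring
  rw [e1, AddMonoidAlgebra.coeff_smul]
  simp only [Finsupp.smul_apply, AddMonoidAlgebra.coeff_sub, Finsupp.sub_apply, T_apply]
  rw [if_neg (show ¬ (N = j) by omega), if_neg (show ¬ (2 + N = j) by omega),
    if_neg (show ¬ (-2 + N = j) by omega)]
  simp

/-- the second step: no full twists -/
theorem stepD_two {m e W N : ℤ} (he : e = 1 ∨ e = -1 ∨ e = 0)
    (h : (1 + dl uT) * (sgn W * T N) =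
      (T 4 + T (-4) - T 2 - T (-2)) * T (6 * m + e) + T (-(6 * m)) * SS e) : m = 0 := by
  by_contra hm
  obtain ⟨h1, h2⟩ := coefR he hm
  rw [← h] at h1 h2
  have h3 := coefL W N (6 * m + e + 4) (by rw [h1]; norm_num)
  have h4 := coefL W N (6 * m + e - 4) (by rw [h2]; norm_num)
  omega

theorem P_eq' {W : ℤ} {P : ℤ[T;T⁻¹]} (h : sgn W * T (-3 * W) * P = 1) : P = sgn W * T (3 * W) := P_eq h

/-- the value for the short braids -/
theorem short_value {x : B3} {e : ℤ} (he' : e = 1 ∨ e = -1 ∨ e = 0) (he : ex x = Multiplicative.ofAdd e)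
    (hs : ts (R uT x).val = SS e) {P : ℤ[T;T⁻¹]} (hP : (1 + dl uT) * P = LamD uT x) :
    P = sgn e * T (3 * e) := by
  have h0 := LamD_short he hs 0
  rw [zpow_zero, one_mul, ← hP, mul_zero, neg_zero, T_zero, one_mul, zero_add] at h0
  apply mul_left_cancel₀ one_add_dl_ne
  rw [h0, dl_uT]
  have t : ∀ a b : ℤ, (T a * T b : ℤ[T;T⁻¹]) = T (a + b) := fun a b => (T_add a b).symm
  rcases he' with rfl | rfl | rfl
  · rw [SS, if_pos rfl, sgn, if_neg (by decide)]
    simp only [add_mul, sub_mul, mul_neg, neg_mul, one_mul, mul_one, t]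
    norm_num
    ring
  · rw [SS, if_neg (by norm_num), if_pos rfl, sgn, if_neg (by decide)]
    simp only [add_mul, sub_mul, mul_neg, neg_mul, one_mul, mul_one, t]
    norm_num
    ring
  · rw [SS, if_neg (by norm_num), if_neg (by norm_num), sgn, if_pos (by decide)]
    simp only [add_mul, sub_mul, mul_neg, neg_mul, one_mul, mul_one, t]
    norm_num
    ring

end Pool.Agent.K6.H14.KD
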