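import Pool.Agent.K6.H14.KB.Link
import Pool.Agent.K6.H14.KW.Wr
import Pool.Agent.K6.H14.KD.Two

/-!
# The bracket of the diagrams, the directions, and the moves
-/

set_option autoImplicit false

namespace Pool.Agent.K6.H14.KD

open Finset LaurentPolynomial Pool.Agent.H891R2.Jones Pool.Agent.W639.RB Pool.Agent.K6.H34.S3
  Pool.Agent.H832R3.TW Pool.Agent.H297.FT Pool.Agent.K6.H14.KB Pool.Agent.K6.H14.KW

variable {N : ℕ}

theorem sum_diag (N : ℕ) (D : ∀ x y : Fin N, Decidable (x = y)) :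
    (∑ x : Fin N, ∑ y : Fin N, @ite ℂ (x = y) (D x y) 1 0) = N := by
  rw [Finset.sum_congr rfl (fun x _ => Finset.sum_eq_single x
    (by intro b _ hb; rw [if_neg hb.symm]) (by simp))]
  simp

theorem sum_diag' (N : ℕ) (D : ∀ x y : Fin N, Decidable (y = x)) :
    (∑ x : Fin N, ∑ y : Fin N, @ite ℂ (y = x) (D x y) 1 0) = N := by
  rw [Finset.sum_congr rfl (fun x _ => Finset.sum_eq_single x
    (by intro b _ hb; rw [if_neg hb]) (by simp))]
  simp

theorem F_one (s : Bool) : Fun (caps s).lower (caps s).upper N 1 = (N : ℂ) ^ 2 := by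
  simp only [Fun, caps, Module.End.one_apply, ind_three]
  simp
  try ring

theorem F_E0 (s : Bool) : Fun (caps s).lower (caps s).upper N (E N 0) = N := by
  simp only [Fun, caps, E0_apply, Finset.sum_apply, ite_apply, ind_three, Pi.zero_apply]
  simp
  exact sum_diag N _

theorem F_E1 (s : Bool) : Fun (caps s).lower (caps s).upper N (E N 1) = N := by
  simp only [Fun, caps, E1_apply, Finset.sum_apply, ite_apply, ind_three, Pi.zero_apply]
  simp
  exact sum_diag' N _

theorem F_E01 (s : Bool) : Fun (caps s).lower (caps s).upper N (E N 0 * E N 1) = N := by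
  simp only [Fun, caps, Module.End.mul_apply, E0_apply, E1_apply, Finset.sum_apply,
    ite_apply, ind_three, Pi.zero_apply]
  simp
  exact sum_diag' N _

theorem F_E10 (s : Bool) : Fun (caps s).lower (caps s).upper N (E N 1 * E N 0) = N := by
  simp only [Fun, caps, Module.End.mul_apply, E0_apply, E1_apply, Finset.sum_apply,
    ite_apply, ind_three, Pi.zero_apply]
  simp
  exact sum_diag N _

theorem F_form (s : Bool) {A : ℂ} (hA : A ≠ 0) (hN : (N : ℂ) = -A^2 - A⁻¹^2)
    {X : Module.End ℂ ((Fin 3 → Fin N) → ((Fin 3 → Fin N) → ℂ))}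
    {g : B3} (h : Form N X (R (Units.mk0 A hA) g).val ((chi (Units.mk0 A hA) g : ℂˣ) : ℂ)) :
    (1 + (N : ℂ)) * Fun (caps s).lower (caps s).upper N X = N * LamD (Units.mk0 A hA) g := by
  have hd : dl (Units.mk0 A hA) = N := by rw [hN, dl]; simp
  rw [LamD, hd, ts]
  generalize (R (Units.mk0 A hA) g).val = M at h ⊢
  generalize ((chi (Units.mk0 A hA) g : ℂˣ) : ℂ) = c at h ⊢
  obtain ⟨b₀, b₁, g, g', rfl, rfl⟩ := h
  rw [Fun_form, F_one, F_E0, F_E1, F_E10, F_E01]
  simp
  ring

theorem ev_knotoid (s : Bool) (M : ℕ) (hM : 3 ≤ M) (w : Word) :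
    (1 + (M : ℂ)) * ev M hM (knotoid s w).bracket =
      LamD (Units.mk0 (Ar M) (Ar_ne M hM)) (braid w) := by
  have : Nonempty (draw (caps s) (nat w)).P := ⟨(draw (caps s) (nat w)).lower 0⟩
  have h1 := ev_bracket M hM (knotoid s w)
  unfold knotoid at h1 ⊢
  rw [Z_close, Zg_draw (nat w) (caps s) (nat_mem w)] at h1
  have h2 := F_form s (Ar_ne M hM) (Ar_d M hM) (Form_word (Ar_ne M hM) (Ar_d M hM) w)
  have h4 := Fun_eq (N := M) (Ar M) (caps s).lower (caps s).upper (caps s).up
    (rho (Ar M) 3 M (nat w))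
  have h5 : Zg (Ar M) M (caps s) (rho (Ar M) 3 M (nat w) (fun x y => ind (x = y))) =
      Fun (caps s).lower (caps s).upper M (rho (Ar M) 3 M (nat w)) := h4
  rw [← h5, ← h1] at h2
  have h3 : (M : ℂ) ≠ 0 := by
    have : M ≠ 0 := by omega
    exact_mod_cast this
  apply mul_left_cancel₀ h3
  rw [← h2]
  ring

theorem bracket_eq (s : Bool) (w : Word) :
    (1 + dl uT) * (knotoid s w).bracket = LamD uT (braid w) := by
  have h : (1 + dl uT) * (knotoid s w).bracket - LamD uT (braid w) + 1 = 1 := by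
    apply eq_one_of_ev
    intro M hM
    have h1 := ev_knotoid s M hM w
    have e1 : ∀ x, ev M hM x = evU (Units.mk0 (Ar M) (Ar_ne M hM)) x := fun _ => rfl
    rw [map_add, map_sub, map_mul, map_add, map_one, e1 (dl uT), evU_dl, e1 (LamD uT _), evU_LamD]
    have hd : dl (Units.mk0 (Ar M) (Ar_ne M hM)) = M := by rw [Ar_d M hM, dl]; simp
    rw [hd, h1]
    ring
  linear_combination h

theorem writhe_eq (s : Bool) (w : Word) : (knotoid s w).writhe = wr ![s, true, !s] w := by
  unfold knotoid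
  rw [close_writhe, (draw_dir w (caps s)).2]
  simp [owr, caps]

theorem fPoly_eq (s : Bool) (w : Word) : (knotoid s w).fPoly =
    sgn (wr ![s, true, !s] w) * T (-3 * wr ![s, true, !s] w) * (knotoid s w).bracket := by
  unfold Diagram.fPoly
  rw [writhe_eq]
  rfl

/-- the directions which fit at the upper side -/
theorem kgood_caps (s : Bool) (v : Fin 3 → Bool) : KGood (caps s) v ↔ (v 1 = true ∧ v 0 ≠ v 2) := by
  have key : ∀ (s : Bool) (v : Fin 3 → Bool), (∃ tail head : Fin 4, tail ≠ head ∧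
      (∀ x : Fin 4, Sst (caps s) v x = if x = head then 0 else 1) ∧
      (∀ x : Fin 4, Sst (caps s).rev (fun j => !(v j)) x = if x = tail then 0 else 1)) ↔
      (v 1 = true ∧ v 0 ≠ v 2) := by
    decide
  exact key s v

theorem isKnotoid_iff' (s : Bool) (w : Word) : IsKnotoid (knotoid s w) ↔
    (act ![s, true, !s] w 1 = true ∧ act ![s, true, !s] w 0 ≠ act ![s, true, !s] w 2) := by
  unfold knotoid
  rw [isKnotoid_iff, kgood_caps]
  rfl

end Pool.Agent.K6.H14.KD
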