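import Pool.Agent.K6.H14.KD.Alg

/-!
# The braids for which the normalised functional is `1`
-/

set_option autoImplicit false

namespace Pool.Agent.K6.H14.KD

open LaurentPolynomial Complex Pool.Agent.K6.H34.S3 Pool.Agent.K6.H14.KB

theorem Z0i : (Z (σ 0)⁻¹).val = !![1, 0; -1, 1] := by rw [map_inv, Z, mkHom_σ]; rfl

/-- the possible images of the braid in `SL₂(ℤ)` -/
theorem matrices {p q r t : ℤ} (hd : p * t - q * r = 1)
    (h : (p + t = 1 ∧ q = r) ∨ (p + t = 3 ∧ q = r) ∨ (p + t = 2 ∧ (q - r = 1 ∨ q - r = -1))) :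
    (p, q, r, t) ∈ ([(1, 0, 1, 1), (1, 0, -1, 1), (1, -1, 0, 1), (1, 1, 0, 1),
      (1, 1, 1, 2), (1, -1, -1, 2), (2, 1, 1, 1), (2, -1, -1, 1)] : List (ℤ × ℤ × ℤ × ℤ)) := by
  rcases h with ⟨h1, h2⟩ | ⟨h1, h2⟩ | ⟨h1, h2⟩
  · exfalso
    have ht : t = 1 - p := by linarith
    subst ht; subst h2
    nlinarith [sq_nonneg (2 * p - 1), sq_nonneg q]
  · have ht : t = 3 - p := by linarith
    subst ht; subst h2
    have hp1 : 1 ≤ p := by nlinarith [sq_nonneg q, sq_nonneg (p - 1)]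
    have hp2 : p ≤ 2 := by nlinarith [sq_nonneg q, sq_nonneg (p - 2)]
    have hq : q ^ 2 = 1 := by
      have : p = 1 ∨ p = 2 := by omega
      rcases this with rfl | rfl <;> nlinarith
    have hq' : q = 1 ∨ q = -1 := by
      have h3 : (q - 1) * (q + 1) = 0 := by linarith
      rcases mul_eq_zero.1 h3 with h4 | h4
      · left; linarith
      · right; linarith
    have : p = 1 ∨ p = 2 := by omega
    rcases this with rfl | rfl <;> rcases hq' with rfl | rfl <;> decide
  · have ht : t = 2 - p := by linarith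
    subst ht
    rcases h2 with h2 | h2
    · have hq : q = r + 1 := by linarith
      subst hq
      have hr : 0 ≤ (r + 1) * r := by
        rcases le_or_gt 0 r with h | h
        · positivity
        · have : r + 1 ≤ 0 := by omega
          nlinarith
      have hp : (p - 1) ^ 2 ≤ 0 := by nlinarith
      have hp' : p = 1 := by nlinarith [sq_nonneg (p - 1)]
      subst hp'
      have h3 : (r + 1) * r = 0 := by linarith
      rcases mul_eq_zero.1 h3 with h4 | h4
      · have : r = -1 := by omega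
        subst this; decide
      · subst h4; decide
    · have hq : q = r - 1 := by linarith
      subst hq
      have hr : 0 ≤ (r - 1) * r := by
        rcases le_or_gt r 0 with h | h
        · nlinarith
        · have : 0 ≤ r - 1 := by omega
          positivity
      have hp : (p - 1) ^ 2 ≤ 0 := by nlinarith
      have hp' : p = 1 := by nlinarith [sq_nonneg (p - 1)]
      subst hp'
      have h3 : (r - 1) * r = 0 := by linarith
      rcases mul_eq_zero.1 h3 with h4 | h4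
      · have : r = 1 := by omega
        subst this; decide
      · subst h4; decide

/-- the image determines the braid up to full twists -/
theorem of_imageD {g : B3}
    (h : ((Z g).val 0 0 + (Z g).val 1 1 = 1 ∧ (Z g).val 0 1 = (Z g).val 1 0) ∨
      ((Z g).val 0 0 + (Z g).val 1 1 = 3 ∧ (Z g).val 0 1 = (Z g).val 1 0) ∨
      ((Z g).val 0 0 + (Z g).val 1 1 = 2 ∧ ((Z g).val 0 1 - (Z g).val 1 0 = 1 ∨
        (Z g).val 0 1 - (Z g).val 1 0 = -1))) :
    ∃ (m : ℤ) (x : B3), Short x ∧ g = C3 ^ m * x := by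
  have hd := Z_det g
  rw [Matrix.det_fin_two] at hd
  have h1 := matrices hd h
  have hZ : (Z g).val = !![(Z g).val 0 0, (Z g).val 0 1; (Z g).val 1 0, (Z g).val 1 1] :=
    Matrix.eta_fin_two _
  have key : ∀ x : B3, Short x → (Z x).val = (Z g).val → ∃ (m : ℤ) (x : B3), Short x ∧ g = C3 ^ m * x := by
    intro x hx hxg
    obtain ⟨m, hm⟩ : ∃ m : ℤ, g * x⁻¹ = C3 ^ m := by
      apply kernel
      left
      rw [map_mul, map_inv, ← Units.ext hxg, mul_inv_cancel]
    exact ⟨m, x, hx, by rw [← hm]; group⟩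
  simp only [List.mem_cons, Prod.mk.injEq, List.not_mem_nil, or_false] at h1
  have zp : ∀ k : ℤ, (Z (σ 0 ^ k)).val = !![1, 0; k, 1] := Z_0pow
  have zq : ∀ k : ℤ, (Z (σ 1 ^ k)).val = !![1, -k; 0, 1] := Z_1pow
  rcases h1 with ⟨a, b, c, d⟩ | ⟨a, b, c, d⟩ | ⟨a, b, c, d⟩ | ⟨a, b, c, d⟩ | ⟨a, b, c, d⟩ |
    ⟨a, b, c, d⟩ | ⟨a, b, c, d⟩ | ⟨a, b, c, d⟩
  · refine key (σ 0 ^ (1 : ℤ)) ⟨0, 1, Or.inl rfl, Or.inl rfl⟩ ?_
    rw [hZ, a, b, c, d, zp]
  · refine key (σ 0 ^ (-1 : ℤ)) ⟨0, -1, Or.inr rfl, Or.inl rfl⟩ ?_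
    rw [hZ, a, b, c, d, zp]
  · refine key (σ 1 ^ (1 : ℤ)) ⟨1, 1, Or.inl rfl, Or.inl rfl⟩ ?_
    rw [hZ, a, b, c, d, zq]
  · refine key (σ 1 ^ (-1 : ℤ)) ⟨1, -1, Or.inr rfl, Or.inl rfl⟩ ?_
    rw [hZ, a, b, c, d, zq, neg_neg]
  · refine key (σ 0 ^ (1 : ℤ) * σ 1 ^ (-1 : ℤ)) ⟨0, 1, Or.inl rfl, Or.inr rfl⟩ ?_
    rw [hZ, a, b, c, d, map_mul, Units.val_mul, zp, zq]; decide
  · refine key (σ 0 ^ (-1 : ℤ) * σ 1 ^ (1 : ℤ)) ⟨0, -1, Or.inr rfl, Or.inr (by simp)⟩ ?_
    rw [hZ, a, b, c, d, map_mul, Units.val_mul, zp, zq]; decide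
  · refine key (σ 1 ^ (-1 : ℤ) * σ 0 ^ (1 : ℤ)) ⟨1, -1, Or.inr rfl, Or.inr (by simp)⟩ ?_
    rw [hZ, a, b, c, d, map_mul, Units.val_mul, zp, zq]; decide
  · refine key (σ 1 ^ (1 : ℤ) * σ 0 ^ (-1 : ℤ)) ⟨1, 1, Or.inl rfl, Or.inr (by simp)⟩ ?_
    rw [hZ, a, b, c, d, map_mul, Units.val_mul, zp, zq]; decide

/-- the first step: evaluation at a primitive eighth root of unity -/
theorem stepD_one {g : B3} {e W : ℤ} (he : ex g = Multiplicative.ofAdd e)
    (hW : Even W ↔ Even e)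
    (hP : (1 + dl uT) * (sgn W * T (3 * W)) = LamD uT g) :
    ∃ (m : ℤ) (x : B3), Short x ∧ g = C3 ^ m * x := by
  obtain ⟨z, hz⟩ := exists_eight
  have hd : dl z = 0 := by
    rw [dl, inv_eight z hz]
    linear_combination (-1 - I ^ 2) * hz + (-I) * I_mul_I
  have h1 := congrArg (evU z) hP
  rw [evU_LamD, LamD_eight z hz, map_mul, map_add, map_one, evU_dl, hd, add_zero, one_mul, map_mul,
    evU_T, chi_eq, he] at h1
  change _ = ((z ^ e : ℂˣ) : ℂ) * _ at h1
  obtain ⟨n, hn⟩ : ∃ n, 3 * W = e + 2 * n := by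
    have h2 : Even (3 * W - e) := by
      have : Even (W - e) := by
        rw [Int.even_sub]; exact hW
      obtain ⟨k, hk⟩ := this
      exact ⟨W + k, by omega⟩
    obtain ⟨k, hk⟩ := h2
    exact ⟨k, by omega⟩
  have h2 : ((z ^ (3 * W) : ℂˣ) : ℂ) = ((z ^ e : ℂˣ) : ℂ) * I ^ n := by
    rw [hn, zpow_add, Units.val_mul]
    congr 1
    rw [zpow_mul, Units.val_zpow_eq_zpow_val]
    congr 1
  rw [h2] at h1
  have hc : ((z ^ e : ℂˣ) : ℂ) ≠ 0 := Units.ne_zero _
  have h3 : evU z (sgn W) * I ^ n =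
      (-2 + (Z g).val 0 0 + (Z g).val 1 1 + I * ((Z g).val 0 1 - (Z g).val 1 0) : ℂ) := by
    apply mul_left_cancel₀ hc
    rw [← h1]
    ring
  have h5 : evU z (sgn W) = 1 ∨ evU z (sgn W) = -1 := by
    rw [sgn]
    split_ifs
    · left; exact map_one _
    · right; rw [map_neg, map_one]
  have h6 : evU z (sgn W) * I ^ n = 1 ∨ evU z (sgn W) * I ^ n = -1 ∨
      evU z (sgn W) * I ^ n = I ∨ evU z (sgn W) * I ^ n = -I := by
    rcases h5 with h5 | h5 <;> rcases I_pow_cases n with ⟨-, h4 | h4⟩ | ⟨-, h4 | h4⟩ <;>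
      rw [h5, h4] <;> simp
  apply of_imageD
  rw [h3] at h6
  rcases h6 with h6 | h6 | h6 | h6
  · have hre := congrArg Complex.re h6
    have him := congrArg Complex.im h6
    simp at hre him
    right; left
    constructor
    · have : ((Z g).val 0 0 : ℝ) + ((Z g).val 1 1 : ℝ) = 3 := by linarith
      exact_mod_cast this
    · have : ((Z g).val 0 1 : ℝ) = ((Z g).val 1 0 : ℝ) := by linarith
      exact_mod_cast this
  · have hre := congrArg Complex.re h6
    have him := congrArg Complex.im h6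
    simp at hre him
    left
    constructor
    · have : ((Z g).val 0 0 : ℝ) + ((Z g).val 1 1 : ℝ) = 1 := by linarith
      exact_mod_cast this
    · have : ((Z g).val 0 1 : ℝ) = ((Z g).val 1 0 : ℝ) := by linarith
      exact_mod_cast this
  · have hre := congrArg Complex.re h6
    have him := congrArg Complex.im h6
    simp at hre him
    right; right
    constructor
    · have : ((Z g).val 0 0 : ℝ) + ((Z g).val 1 1 : ℝ) = 2 := by linarith
      exact_mod_cast this
    · left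
      have : ((Z g).val 0 1 : ℝ) - ((Z g).val 1 0 : ℝ) = 1 := by linarith
      exact_mod_cast this
  · have hre := congrArg Complex.re h6
    have him := congrArg Complex.im h6
    simp at hre him
    right; right
    constructor
    · have : ((Z g).val 0 0 : ℝ) + ((Z g).val 1 1 : ℝ) = 2 := by linarith
      exact_mod_cast this
    · right
      have : ((Z g).val 0 1 : ℝ) - ((Z g).val 1 0 : ℝ) = -1 := by linarith
      exact_mod_cast this

end Pool.Agent.K6.H14.KD
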